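import Pool.Agent.ATW.Stmts
import Pool.Agent.Helper8_AT8.DPW

/-! Squad ATW, row DPV: conjugation with the inertial group, and powers (all primes). -/

open scoped BigOperators

noncomputable section

namespace Pool.Agent.PP.TW.H65

open Pool.Agent.Helper51_AWC Pool.Agent.Helper79_WRA Pool.Agent.PP Pool.Agent.PP.KF
open Pool.Agent.PP.K9 Pool.Agent.PP.K9.H97 Pool.Agent.PP.H75 Pool.Agent.PP.T3 Pool.Agent.PP.T2
open Pool.Agent.PP.T5 Pool.Agent.PP.TB
open Pool.Agent.PP.T8 (rs pw fv rd Ip Rv vv Dat Fr)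

attribute [local instance] Ideal.Quotient.field

/-- row DPV -/
theorem dpv (hLOC : T3.LocStmt) (hLPW : T3.LpwStmt) : DpvStmt := by
  intro ℓ _ M _ hM G _ _ e V γ b d c ε hD
  have hp : ℓ.Prime := Fact.out
  have hF : GoodF ℓ (FF M) := H50.fld ℓ Fact.out M hM
  have hL := hD.ld
  refine ⟨?_, ?_⟩
  · intro t ht u hu
    have hV : t * u * t⁻¹ ∈ V := (Subgroup.mem_normalizer_iff.1 ht.1 u).1 hu.1
    have hR : Rg V γ (t * u * t⁻¹) := by
      refine ⟨hV, ?_, ?_⟩
      · intro h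
        apply hu.2.1
        have : u = t⁻¹ * (t * u * t⁻¹) * t := by group
        rw [this, h]
        group
      · intro s hs
        have h1 : t⁻¹ * s * t ∈ Tg V γ ⊓ Cu u := by
          refine ⟨mul_mem (mul_mem ((Tg V γ).inv_mem ht) hs.1) ht, ?_⟩
          exact (T3.H49.cu_conj rfl s).2 hs.2
        exact (T8.H8.cent_conj_iff ht.1).1 (hu.2.2 h1)
    have hlc := T8.H8.lc_cj hL.blk.1.1 ht rfl (hD.lc u hu)
    have hb : b (t * u * t⁻¹) = cj t (b u) :=
      (hLOC ℓ (FF M) hF G e V γ hL _ hV).2 _ _ (hD.lc _ hR) hlc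
    have hbc : IsCl (fun s : Cu u => b u s) := (hD.lc u hu).blk.blk.1.1
    have hd : d (t * u * t⁻¹) = d u := by
      have h1 := hD.dg _ hR
      rw [hb] at h1
      have h2 := T8.H8.dg_cj (rfl : t * u * t⁻¹ = t * u * t⁻¹) hbc (hD.dg u hu)
      exact T8.H8.dg_unique (T8.H8.nonempty_of_blk hlc.blk.blk) h1 h2
    refine ⟨hR, ?_⟩
    intro χ hχ
    unfold vv
    rw [hb, hd, T8.H8.gv_cj rfl hbc (fun x y => irr_conj hχ x y)]
  · intro u hu j hj
    obtain ⟨hC, hlc⟩ := hLPW ℓ (FF M) hF G e V γ hL u hu.1 (b u) (hD.lc u hu) j hj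
    have hV : u ^ j ∈ V := V.pow_mem hu.1 j
    have hR : Rg V γ (u ^ j) := by
      refine ⟨hV, ?_, ?_⟩
      · intro h
        apply hu.2.1
        obtain ⟨n, hn⟩ := hL.tp.pg ⟨u, hu.1⟩
        have hn' : u ^ ℓ ^ n = 1 := congrArg (fun v : V => (v : G)) hn
        have h1 : orderOf u ∣ Nat.gcd (ℓ ^ n) j :=
          Nat.dvd_gcd (orderOf_dvd_of_pow_eq_one hn') (orderOf_dvd_of_pow_eq_one h)
        have h2 : Nat.gcd (ℓ ^ n) j = 1 :=
          Nat.Coprime.pow_left n ((Nat.Prime.coprime_iff_not_dvd hp).2 hj)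
        rw [h2, Nat.dvd_one] at h1
        exact orderOf_eq_one_iff.1 h1
      · rw [hC]
        exact hu.2.2
    have hb : b (u ^ j) = b u :=
      (hLOC ℓ (FF M) hF G e V γ hL _ hV).2 _ _ (hD.lc _ hR) hlc
    have hd : d (u ^ j) = d u := by
      have h1 := hD.dg _ hR
      rw [hb] at h1
      have h2 : Dg M (fun s : Cu (u ^ j) => b u s) (d u) := by
        rw [hC]
        exact hD.dg u hu
      exact T8.H8.dg_unique (T8.H8.nonempty_of_blk hlc.blk.blk) h1 h2
    exact ⟨hR, hC, hb, hd⟩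

end Pool.Agent.PP.TW.H65
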