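import Pool.Agent.ATW.Stmts

/-! Squad ATW, row PR3: existence of the exponent `N`. -/

open scoped BigOperators

noncomputable section

namespace Pool.Agent.PP.TW.H65

open Pool.Agent.Helper51_AWC Pool.Agent.Helper79_WRA Pool.Agent.PP Pool.Agent.PP.KF
open Pool.Agent.PP.K9 Pool.Agent.PP.K9.H97 Pool.Agent.PP.H75 Pool.Agent.PP.T3 Pool.Agent.PP.T2
open Pool.Agent.PP.T5 Pool.Agent.PP.TB

/-- PR3 -/
theorem pr3 (hP3m : P3mStmt) : Pr3Stmt := by
  intro G _ _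
  have hp : Nat.Prime 2 := Nat.prime_two
  obtain ⟨n, hn⟩ : ∃ n : ℕ, n = Nat.card G := ⟨_, rfl⟩
  have hn0 : n ≠ 0 := by
    rw [hn]
    exact Nat.card_pos.ne'
  obtain ⟨a, ha⟩ : ∃ a : ℕ, a = n.factorization 2 := ⟨_, rfl⟩
  obtain ⟨m, hm⟩ : ∃ m : ℕ, m = n / 2 ^ a := ⟨_, rfl⟩
  have hnm : 2 ^ a * m = n := by
    rw [hm, ha]
    exact Nat.ordProj_mul_ordCompl_eq_self n 2
  have hcop : Nat.Coprime 2 m := by
    rw [hm, ha]
    exact Nat.coprime_ordCompl hp hn0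
  have hc2 : Nat.Coprime (2 ^ (a + 1)) m := Nat.Coprime.pow_left _ hcop
  obtain ⟨N, hN1, hN2⟩ := Nat.chineseRemainder hc2 3 1
  have hNl1 : Nat.Coprime N 2 := by
    have h1 : N ≡ 3 [MOD 2] := hN1.of_dvd (dvd_pow_self 2 (by omega))
    have h2 := h1.gcd_eq
    have h3 : Nat.gcd 3 2 = 1 := by norm_num
    rw [h3] at h2
    exact h2
  have hNm : Nat.Coprime N m := by
    have := hN2.gcd_eq
    rw [Nat.gcd_one_left] at this
    exact this
  have hord : ∀ y : G, El 2 y → orderOf y ∣ 2 ^ (a + 1) := by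
    intro y hy
    obtain ⟨i, hi⟩ := hy
    have h3 : orderOf y ∣ 2 ^ i := orderOf_dvd_of_pow_eq_one hi
    have h4 : orderOf y ∣ 2 ^ a * m := by
      rw [hnm, hn]
      exact orderOf_dvd_natCard y
    have h5 : Nat.Coprime (orderOf y) m :=
      Nat.Coprime.coprime_dvd_left h3 (Nat.Coprime.pow_left _ hcop)
    exact (h5.dvd_of_dvd_mul_right h4).trans (pow_dvd_pow _ (by omega))
  refine ⟨N, ?_, ?_, ?_, ?_⟩
  · rw [← hn, ← hnm]
    exact Nat.Coprime.mul_right (Nat.Coprime.pow_right _ hNl1) hNm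
  · intro g hg
    have h1 : orderOf g ∣ m := by
      have h2 : orderOf g ∣ 2 ^ a * m := by
        rw [hnm, hn]
        exact orderOf_dvd_natCard g
      exact (Nat.Coprime.pow_right a hg).dvd_of_dvd_mul_left h2
    have h2 : g ^ N = g ^ 1 := pow_eq_pow_iff_modEq.2 (hN2.of_dvd h1)
    rw [h2, pow_one]
  · intro y hy
    exact pow_eq_pow_iff_modEq.2 (hN1.of_dvd (hord y hy))
  · intro j hj
    obtain ⟨k, hk⟩ := hP3m (a + 1) j hj
    refine ⟨k, fun y hy => ?_⟩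
    apply pow_eq_pow_iff_modEq.2
    exact ((hN1.pow k).trans hk).of_dvd (hord y hy)

end Pool.Agent.PP.TW.H65
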