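import Pool.Agent.ATW.Stmts

/-! Squad ATW, row STA: the theorem of Broué and Puig for an abelian defect group. -/

open scoped BigOperators

noncomputable section

namespace Pool.Agent.PP.TW.H65

open Pool.Agent.Helper51_AWC Pool.Agent.Helper79_WRA Pool.Agent.PP Pool.Agent.PP.KF
open Pool.Agent.PP.K9 Pool.Agent.PP.K9.H97 Pool.Agent.PP.H75 Pool.Agent.PP.T3 Pool.Agent.PP.T2
open Pool.Agent.PP.T5 Pool.Agent.PP.TB

attribute [local instance] Ideal.Quotient.field

/-- STA -/
theorem sta (hZlo : T10.ZloStmt) (hStr : T10.StrStmt) : StaStmt := by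
  intro ℓ _ M _ hM G _ _ e V γ hL
  have hZc : Zc V = V := by
    unfold Zc
    refine le_antisymm inf_le_left (le_inf le_rfl fun x hx => ?_)
    rw [Subgroup.mem_centralizer_iff]
    intro y hy
    exact hL.ab y hy x hx
  have hU : Uw (ℓ ^ 0) (Zc V) = V := by
    rw [hZc]
    unfold Uw
    have : (fun x : G => x ^ ℓ ^ 0) '' (V : Set G) = (V : Set G) := by
      simp
    rw [this]
    exact Subgroup.closure_eq V
  obtain ⟨b', hb, hlo⟩ := hZlo ℓ M hM G e V γ hL.blk hL.tp hL.gam hL.und 0 (by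
    rw [hZc, pow_zero, one_mul])
  rw [hU] at hb hlo
  exact ⟨b', hb, hStr ℓ M hM G e V V γ b' hb hlo⟩

end Pool.Agent.PP.TW.H65
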